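import Pool.Agent.TH358.MC.Defs

set_option autoImplicit false

/-!
# Functionals on exterior algebras given by alternating forms
-/

namespace Pool.Agent.T9h59.GC

variable {C : Type} [AddCommGroup C] [Module ℚ C]

/-- the functional on the exterior algebra given by an alternating form in `j` variables -/
noncomputable def la (j : ℕ) (T : C [⋀^Fin j]→ₗ[ℚ] ℚ) : ExteriorAlgebra ℚ C →ₗ[ℚ] ℚ :=
  ExteriorAlgebra.liftAlternating (R := ℚ) (M := C) (N := ℚ)
    (Pi.single (M := fun i => C [⋀^Fin i]→ₗ[ℚ] ℚ) j T)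

theorem la_add (j : ℕ) (T T' : C [⋀^Fin j]→ₗ[ℚ] ℚ) : la j (T + T') = la j T + la j T' := by
  rw [la, Pi.single_add, map_add]
  rfl

theorem la_smul (j : ℕ) (c : ℚ) (T : C [⋀^Fin j]→ₗ[ℚ] ℚ) : la j (c • T) = c • la j T := by
  rw [la, Pi.single_smul, map_smul]
  rfl

theorem la_ι_mul (j : ℕ) (T : C [⋀^Fin (j + 1)]→ₗ[ℚ] ℚ) (a : C) (w : ExteriorAlgebra ℚ C) :
    la (j + 1) T (ExteriorAlgebra.ι ℚ a * w) = la j (T.curryLeft a) w := by
  rw [la, ExteriorAlgebra.liftAlternating_ι_mul, la]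
  congr 2
  funext i
  by_cases h : i = j
  · subst h
    rw [Pi.single_eq_same, Pi.single_eq_same]
  · rw [Pi.single_eq_of_ne h, Pi.single_eq_of_ne (fun h' => h (Nat.succ_injective h')),
      AlternatingMap.curryLeft_zero]
    rfl

theorem la_ι (T : C [⋀^Fin 1]→ₗ[ℚ] ℚ) (a : C) : la 1 T (ExteriorAlgebra.ι ℚ a) = T ![a] := by
  rw [la, ExteriorAlgebra.liftAlternating_ι, Pi.single_eq_same]

theorem la_two (T : C [⋀^Fin 2]→ₗ[ℚ] ℚ) (a b : C) :
    la 2 T (ExteriorAlgebra.ι ℚ a * ExteriorAlgebra.ι ℚ b) = T ![a, b] := by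
  rw [la_ι_mul, la_ι, AlternatingMap.curryLeft_apply_apply]

/-- `(a, b) ↦ B a b - B b a` -/
noncomputable def alt2 (B : C →ₗ[ℚ] C →ₗ[ℚ] ℚ) : C [⋀^Fin 2]→ₗ[ℚ] ℚ :=
  { toFun := fun v => B (v 0) (v 1) - B (v 1) (v 0)
    map_update_add' := by
      intro _ v i x y
      fin_cases i
      · simp [Function.update_of_ne]; ring
      · simp [Function.update_of_ne]; ring
    map_update_smul' := by
      intro _ v i c x
      fin_cases i
      · simp [Function.update_of_ne]; ring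
      · simp [Function.update_of_ne]; ring
    map_eq_zero_of_eq' := by
      intro v i j h hij
      fin_cases i <;> fin_cases j
      · exact absurd rfl hij
      · have h' : v 0 = v 1 := h
        simp [h']
      · have h' : v 1 = v 0 := h
        simp [h']
      · exact absurd rfl hij }

theorem alt2_apply (B : C →ₗ[ℚ] C →ₗ[ℚ] ℚ) (a b : C) : alt2 B ![a, b] = B a b - B b a := rfl

theorem alt2_add (B B' : C →ₗ[ℚ] C →ₗ[ℚ] ℚ) : alt2 (B + B') = alt2 B + alt2 B' := by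
  ext v
  change (B (v 0) (v 1) + B' (v 0) (v 1)) - (B (v 1) (v 0) + B' (v 1) (v 0)) =
    (B (v 0) (v 1) - B (v 1) (v 0)) + (B' (v 0) (v 1) - B' (v 1) (v 0))
  ring

theorem alt2_smul (c : ℚ) (B : C →ₗ[ℚ] C →ₗ[ℚ] ℚ) : alt2 (c • B) = c • alt2 B := by
  ext v
  change c * B (v 0) (v 1) - c * B (v 1) (v 0) = c * (B (v 0) (v 1) - B (v 1) (v 0))
  ring

/-- `alt2` as a linear map -/
noncomputable def alt2L : (C →ₗ[ℚ] C →ₗ[ℚ] ℚ) →ₗ[ℚ] C [⋀^Fin 2]→ₗ[ℚ] ℚ :=
  { toFun := alt2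
    map_add' := alt2_add
    map_smul' := alt2_smul }

/-- the alternating form in three variables given by a trilinear form -/
noncomputable def alt3 (f : C →ₗ[ℚ] C →ₗ[ℚ] C →ₗ[ℚ] ℚ) : C [⋀^Fin 3]→ₗ[ℚ] ℚ :=
  AlternatingMap.alternatizeUncurryFin (alt2L ∘ₗ f)

theorem alt3_apply (f : C →ₗ[ℚ] C →ₗ[ℚ] C →ₗ[ℚ] ℚ) (a b c : C) : alt3 f ![a, b, c] =
    (f a b c - f a c b) - (f b a c - f b c a) + (f c a b - f c b a) := by
  rw [alt3, AlternatingMap.alternatizeUncurryFin_apply, Fin.sum_univ_three]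
  have h0 : (0 : Fin 3).removeNth ![a, b, c] = ![b, c] := by
    funext i; fin_cases i <;> rfl
  have h1 : (1 : Fin 3).removeNth ![a, b, c] = ![a, c] := by
    funext i; fin_cases i <;> rfl
  have h2 : (2 : Fin 3).removeNth ![a, b, c] = ![a, b] := by
    funext i; fin_cases i <;> rfl
  rw [h0, h1, h2]
  change (-1 : ℤ) ^ 0 • (alt2 (f a) ![b, c]) + (-1 : ℤ) ^ 1 • (alt2 (f b) ![a, c]) +
    (-1 : ℤ) ^ 2 • (alt2 (f c) ![a, b]) = _
  rw [alt2_apply, alt2_apply, alt2_apply]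
  norm_num
  ring

end Pool.Agent.T9h59.GC
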