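import Pool.Agent.T9h59.GC.Kos
import Pool.Agent.TH358.MC.Main

set_option autoImplicit false

/-!
# The depth one part is spanned by classical polylogarithms, if `(1 - x) ⊗ x^n` span `V ⊗ Sym^n V`
-/

namespace Pool.Agent.T9h59.GC

open Pool.Agent.TH358.MC H39Gon
open scoped TensorProduct

variable {F : Type} [Field F] {C : Type} [AddCommGroup C] [Module ℚ C] (M : MotivicLie C F)

/-- the class of `y ∈ F^*` in `C_1` -/
noncomputable def gc : UV F →ₗ[ℤ] M.toLieCoalg.W 1 :=
  { toFun := fun y => ⟨gOf M.φ y, g_mem M y⟩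
    map_add' := fun _ _ => Subtype.ext (map_add _ _ _)
    map_smul' := fun _ _ => Subtype.ext (map_smul _ _ _) }

theorem gc_coe (y : UV F) : (gc M y : C) = gOf M.φ y := rfl

theorem gc_cl (x : F) : (gc M (cl x) : C) = M.φ (cls x) := g_cl M x

theorem gc_surj (v : M.toLieCoalg.W 1) : ∃ (q : ℚ) (y : UV F), v = q • gc M y := by
  obtain ⟨v, hv⟩ := v
  have hv' := hv
  rw [← M.φ_range] at hv'
  obtain ⟨u, rfl⟩ := hv'
  obtain ⟨q, y, rfl⟩ := pure u
  refine ⟨q, y, Subtype.ext ?_⟩
  change M.φ (q ⊗ₜ[ℤ] y) = q • gOf M.φ y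
  rw [phi_pure]

theorem Li_mem_X (n : ℕ) (hn : 1 ≤ n) (x : F) (hx : x ≠ 0) : M.Li n x ∈ X M.toLieCoalg n :=
  ⟨M.Li_mem n x hn hx, (mem_D_one M _).1 (Li_mem_D M n hn x hx)⟩

/-- the value of the functional of a multilinear form at a classical polylogarithm -/
theorem E_Li (k : ℕ) : ∀ (G : MM M.toLieCoalg k) (x : F), x ≠ 0 →
    E M.toLieCoalg k G (M.Li (k + 2) x) =
      (-1) ^ (k + 1) * G (fun _ => gc M (cl x)) ![gc M (cl (1 - x)), gc M (cl x)] := by
  induction k with
  | zero =>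
    intro G x hx
    rw [E_zero, M0_apply, M.Li_succ 1 x le_rfl hx, la_two, M.Li_one x hx]
    have h : (AlternatingMap.compLinearMap (G 0) (pr M.toLieCoalg))
        ![-M.φ (cls (1 - x)), M.φ (cls x)] = (G 0) ![-gc M (cl (1 - x)), gc M (cl x)] := by
      rw [AlternatingMap.compLinearMap_apply]
      congr 1
      funext j
      fin_cases j
      · change pr M.toLieCoalg (-M.φ (cls (1 - x))) = -gc M (cl (1 - x))
        rw [map_neg, ← gc_cl, pr_coe]
      · change pr M.toLieCoalg (M.φ (cls x)) = gc M (cl x)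
        rw [← gc_cl, pr_coe]
    rw [h]
    have h2 : (![-gc M (cl (1 - x)), gc M (cl x)] : Fin 2 → M.toLieCoalg.W 1) =
        Function.update ![gc M (cl (1 - x)), gc M (cl x)] 0
          ((-1 : ℚ) • (![gc M (cl (1 - x)), gc M (cl x)] : Fin 2 → M.toLieCoalg.W 1) 0) := by
      funext j
      fin_cases j
      · simp
      · simp
    rw [h2, AlternatingMap.map_update_smul, Function.update_eq_self]
    have h3 : (fun _ : Fin 0 => gc M (cl x)) = 0 := Subsingleton.elim _ _
    rw [h3]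
    simp
  | succ k ih =>
    intro G x hx
    rw [E_succ, E1_apply, M.Li_succ (k + 2) x (by omega) hx, swap, map_neg, ← gc_cl,
      la_gam M.toLieCoalg _ (gc M (cl x)) (k + 2) (by omega) _ (M.Li_mem (k + 2) x (by omega) hx)]
    change - E M.toLieCoalg k (MultilinearMap.curryLeft (M := fun _ => M.toLieCoalg.W 1) G
      (gc M (cl x))) (M.Li (k + 2) x) = _
    rw [ih _ x hx]
    change -((-1) ^ (k + 1) * G (Fin.cons (gc M (cl x)) (fun _ => gc M (cl x))) _) = _
    have h : (Fin.cons (gc M (cl x)) (fun _ => gc M (cl x)) : Fin (k + 1) → M.toLieCoalg.W 1) =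
        fun _ => gc M (cl x) := by
      funext j
      refine Fin.cases ?_ (fun j => ?_) j <;> rfl
    rw [h]
    ring

theorem van_of_span (k : ℕ) (hsd : SpanDual F k) (G : MM M.toLieCoalg k)
    (hG : ∀ x : F, x ≠ 0 → x ≠ 1 →
      G (fun _ => gc M (cl x)) ![gc M (cl (1 - x)), gc M (cl x)] = 0)
    (s v : M.toLieCoalg.W 1) : G (fun _ => s) ![s, v] = 0 := by
  -- the multilinear map `Q (s_1, …, s_{k+1}) v = G (s_1, …, s_k) (v, s_{k+1})`
  let ev2 : A2 M.toLieCoalg →ₗ[ℤ] (UV F →ₗ[ℤ] (UV F →ₗ[ℤ] ℚ)) :=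
    { toFun := fun ω => LinearMap.mk₂ ℤ (fun u v => ω ![gc M v, gc M u])
        (fun u u' v => by
          rw [map_add]
          have h := ω.map_update_add ![gc M v, gc M u] 1 (gc M u) (gc M u')
          have h1 : ∀ w, Function.update ![gc M v, gc M u] 1 w = ![gc M v, w] := by
            intro w; funext j; fin_cases j <;> simp
          simpa only [h1] using h)
        (fun c u v => by
          rw [map_smul]
          have h := ω.map_update_smul ![gc M v, gc M u] 1 (c : ℚ) (gc M u)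
          have h1 : ∀ w, Function.update ![gc M v, gc M u] 1 w = ![gc M v, w] := by
            intro w; funext j; fin_cases j <;> simp
          simp only [h1] at h
          rw [Int.cast_smul_eq_zsmul, Int.cast_smul_eq_zsmul] at h
          exact h)
        (fun u v v' => by
          rw [map_add]
          have h := ω.map_update_add ![gc M v, gc M u] 0 (gc M v) (gc M v')
          have h1 : ∀ w, Function.update ![gc M v, gc M u] 0 w = ![w, gc M u] := by
            intro w; funext j; fin_cases j <;> simp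
          simpa only [h1] using h)
        (fun c u v => by
          rw [map_smul]
          have h := ω.map_update_smul ![gc M v, gc M u] 0 (c : ℚ) (gc M v)
          have h1 : ∀ w, Function.update ![gc M v, gc M u] 0 w = ![w, gc M u] := by
            intro w; funext j; fin_cases j <;> simp
          simp only [h1] at h
          rw [Int.cast_smul_eq_zsmul, Int.cast_smul_eq_zsmul] at h
          exact h)
      map_add' := fun _ _ => by ext; rfl
      map_smul' := fun _ _ => by ext; rfl }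
  let Q : MultilinearMap ℤ (fun _ : Fin (k + 1) => UV F) (UV F →ₗ[ℤ] ℚ) :=
    MultilinearMap.uncurryRight (M := fun _ : Fin (k + 1) => UV F)
      (ev2.compMultilinearMap ((G.restrictScalars ℤ).compLinearMap (fun _ => gc M)))
  have hQ : ∀ (s v : UV F), Q (fun _ => s) v = G (fun _ => gc M s) ![gc M v, gc M s] :=
    fun s v => rfl
  have h1 := hsd Q (fun f hf0 hf1 => by
    rw [hQ]
    exact hG f hf0 hf1)
  obtain ⟨q, y, rfl⟩ := gc_surj M s
  obtain ⟨r, z, rfl⟩ := gc_surj M v
  have h2 : G (fun _ => gc M y) ![gc M z, gc M y] = 0 := by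
    rw [← hQ]; exact h1 y z
  have h3 : G (fun _ => q • gc M y) = q ^ k • G (fun _ => gc M y) := by
    have h4 := G.map_smul_univ (fun _ => q) (fun _ => gc M y)
    rw [h4, Finset.prod_const, Finset.card_univ, Fintype.card_fin]
  rw [h3]
  have h4 := (G (fun _ => gc M y)).map_smul_univ ![q, r] ![gc M y, gc M z]
  have h5 : (fun i : Fin 2 => (![q, r] : Fin 2 → ℚ) i • (![gc M y, gc M z] :
      Fin 2 → M.toLieCoalg.W 1) i) = ![q • gc M y, r • gc M z] := by
    funext j; fin_cases j <;> rfl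
  rw [h5] at h4
  have h6 := (G (fun _ => gc M y)).map_swap ![gc M y, gc M z] (i := 0) (j := 1) (by decide)
  have h7 : (![gc M y, gc M z] : Fin 2 → M.toLieCoalg.W 1) ∘ (Equiv.swap (0 : Fin 2) 1) =
      ![gc M z, gc M y] := by
    funext j; fin_cases j <;> simp
  rw [h7, h2] at h6
  have h8 : (G (fun _ => gc M y)) ![gc M y, gc M z] = 0 := by linarith
  change q ^ k * (G (fun _ => gc M y)) ![q • gc M y, r • gc M z] = 0
  rw [h4, h8]
  simp

/-- the depth one part of weight `k + 2` -/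
theorem X_le_span (k : ℕ) (hsd : SpanDual F k) : X M.toLieCoalg (k + 2) ≤
    Submodule.span ℚ {a | ∃ x : F, x ≠ 0 ∧ a = M.Li (k + 2) x} := by
  intro α hα
  set S := Submodule.span ℚ {a | ∃ x : F, x ≠ 0 ∧ a = M.Li (k + 2) x} with hS
  rw [← Submodule.Quotient.mk_eq_zero]
  rw [← Module.forall_dual_apply_eq_zero_iff ℚ]
  intro f
  obtain ⟨R, hR⟩ := exists_R M.toLieCoalg M.ext_one k
  have h1 := hR (f ∘ₗ S.mkQ) α hα
  change f (S.mkQ α) = 0
  have h2 : f (S.mkQ α) = (f ∘ₗ S.mkQ) α := rfl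
  rw [h2, ← h1]
  apply E_van M.toLieCoalg k _ _ α hα
  apply van_of_span M k hsd
  intro x hx _
  have h3 := hR (f ∘ₗ S.mkQ) (M.Li (k + 2) x) (Li_mem_X M (k + 2) (by omega) x hx)
  rw [E_Li M k _ x hx] at h3
  have h4 : (f ∘ₗ S.mkQ) (M.Li (k + 2) x) = 0 := by
    change f (S.mkQ (M.Li (k + 2) x)) = 0
    have h5 : S.mkQ (M.Li (k + 2) x) = 0 := by
      rw [Submodule.mkQ_apply, Submodule.Quotient.mk_eq_zero]
      exact Submodule.subset_span ⟨x, hx, rfl⟩
    rw [h5, map_zero]
  rw [h4] at h3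
  exact (mul_eq_zero.1 h3).resolve_left (pow_ne_zero _ (by norm_num))

theorem D_one_weight' (hsd : ∀ m, SpanDual F m) (n : ℕ) (hn : 1 ≤ n) :
    M.toLieCoalg.D 1 ⊓ M.W n = Submodule.span ℚ {a | ∃ x : F, x ≠ 0 ∧ a = M.Li n x} := by
  apply le_antisymm
  · rintro α ⟨h1, h2⟩
    rcases Nat.lt_or_ge n 2 with h | h
    · have h3 : n = 1 := by omega
      subst h3
      rw [← W_one_eq]
      exact h2
    · obtain ⟨m, rfl⟩ : ∃ m, n = m + 2 := ⟨n - 2, by omega⟩
      exact X_le_span M m (hsd m) ⟨h2, (mem_D_one M α).1 h1⟩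
  · rw [Submodule.span_le]
    rintro _ ⟨x, hx, rfl⟩
    exact ⟨Li_mem_D M n hn x hx, M.Li_mem n x hn hx⟩

theorem D_one_total' (hsd : ∀ m, SpanDual F m) : M.toLieCoalg.D 1 =
    Submodule.span ℚ {a | ∃ (n : ℕ) (x : F), 1 ≤ n ∧ x ≠ 0 ∧ a = M.Li n x} := by
  classical
  apply le_antisymm
  · intro α hα
    have h1 : α ∈ ⨆ i, M.W i := by
      rw [M.internal.submodule_iSup_eq_top]
      exact Submodule.mem_top
    obtain ⟨f, hf, rfl⟩ := (Submodule.mem_iSup_iff_exists_finsupp _ _).1 h1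
    rw [Finsupp.sum]
    refine Submodule.sum_mem _ fun i _ => ?_
    have h2 := D_one_graded M f hf hα i
    rcases Nat.eq_zero_or_pos i with hi0 | hi0
    · have h3 := hf i
      rw [hi0, M.W_zero, Submodule.mem_bot] at h3
      rw [hi0, h3]
      exact Submodule.zero_mem _
    · have h3 : f i ∈ M.toLieCoalg.D 1 ⊓ M.W i := ⟨h2, hf i⟩
      rw [D_one_weight' M hsd i hi0] at h3
      refine Submodule.span_mono ?_ h3
      rintro _ ⟨x, hx, rfl⟩
      exact ⟨i, x, hi0, hx, rfl⟩
  · rw [Submodule.span_le]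
    rintro _ ⟨n, x, hn, hx, rfl⟩
    exact Li_mem_D M n hn x hx

end Pool.Agent.T9h59.GC
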