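import Pool.Agent.T9h59.GC.Alt
import Pool.Agent.TH358.MC.Step
import Pool.Agent.H39R2.Gon.D1

set_option autoImplicit false

/-!
# Functionals on the depth one part of a graded Lie coalgebra given by multilinear forms on `C_1`
-/

namespace Pool.Agent.T9h59.GC

open Pool.Agent.TH358.MC H39Gon

variable {C : Type} [AddCommGroup C] [Module ℚ C] (L : LieCoalg C)

theorem exists_pr : ∃ p : C →ₗ[ℚ] L.W 1, (∀ (a : C) (ha : a ∈ L.W 1), p a = ⟨a, ha⟩) ∧
    ∀ j, j ≠ 1 → ∀ a ∈ L.W j, p a = 0 := by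
  obtain ⟨s, hs⟩ := scale L (fun i => if i = 1 then 1 else 0)
  have h : ∀ a, s a ∈ L.W 1 := by
    intro a
    have ha : a ∈ ⨆ i, L.W i := by
      rw [L.internal.submodule_iSup_eq_top]
      exact Submodule.mem_top
    induction ha using Submodule.iSup_induction' with
    | mem i x hx =>
      rw [hs i x hx]
      by_cases hi : i = 1
      · subst hi; exact Submodule.smul_mem _ _ hx
      · rw [if_neg hi, zero_smul]; exact Submodule.zero_mem _
    | zero => rw [map_zero]; exact Submodule.zero_mem _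
    | add x y _ _ hx hy => rw [map_add]; exact Submodule.add_mem _ hx hy
  refine ⟨s.codRestrict _ h, fun a ha => ?_, fun j hj a ha => ?_⟩
  · apply Subtype.ext
    rw [LinearMap.codRestrict_apply, hs 1 a ha, if_pos rfl, one_smul]
  · apply Subtype.ext
    rw [LinearMap.codRestrict_apply, hs j a ha, if_neg hj, zero_smul]
    rfl

/-- the projection to `C_1` -/
noncomputable def pr : C →ₗ[ℚ] L.W 1 := (exists_pr L).choose

theorem pr_one (a : C) (ha : a ∈ L.W 1) : pr L a = ⟨a, ha⟩ := (exists_pr L).choose_spec.1 a ha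

theorem pr_coe (a : L.W 1) : pr L (a : C) = a := pr_one L a a.2

theorem pr_ne (j : ℕ) (hj : j ≠ 1) (a : C) (ha : a ∈ L.W j) : pr L a = 0 :=
  (exists_pr L).choose_spec.2 j hj a ha

/-- the depth one part of weight `n` -/
def X (n : ℕ) : Submodule ℚ C := L.W n ⊓ (wedge (L.W 1) ⊤).comap (L.d ∘ₗ ExteriorAlgebra.ι ℚ)

theorem mem_X (n : ℕ) (α : C) : α ∈ X L n ↔ α ∈ L.W n ∧
    L.d (ExteriorAlgebra.ι ℚ α) ∈ wedge (L.W 1) ⊤ := Iff.rfl

theorem X_le (n : ℕ) : X L n ≤ L.W n := inf_le_left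

/-- the expansion of the cobracket of a depth one element -/
theorem expandX (n : ℕ) (α : C) (hα : α ∈ X L (n + 1)) {I : Type}
    (b : Module.Basis I ℚ (L.W 1)) : ∃ β : I →₀ C, (∀ i, β i ∈ X L n) ∧
      L.d (ExteriorAlgebra.ι ℚ α) =
        β.sum (fun i c => ExteriorAlgebra.ι ℚ (b i : C) * ExteriorAlgebra.ι ℚ c) := by
  have h1 : L.d (ExteriorAlgebra.ι ℚ α) ∈ WW L (n + 1) := L.d_W (n + 1) α hα.1
  have h2 := mem_n1 L n _ h1 hα.2
  obtain ⟨β, hβ, hsum⟩ := expand L b (L.W n) _ h2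
  refine ⟨β, fun j => ⟨hβ j, ?_⟩, hsum⟩
  exact comp_mem L b n β hβ (by rw [← hsum, L.d_d]) j

/-! ### the functional of a bilinear form -/

/-- `Γ (a_1) (b_{≥ 2})` -/
noncomputable def gam (Γ : L.W 1 →ₗ[ℚ] C →ₗ[ℚ] ℚ) : C →ₗ[ℚ] C →ₗ[ℚ] ℚ :=
  (Γ ∘ₗ pr L).compl₂ (LinearMap.id - (L.W 1).subtype ∘ₗ pr L)

theorem gam_apply (Γ : L.W 1 →ₗ[ℚ] C →ₗ[ℚ] ℚ) (a b : C) :
    gam L Γ a b = Γ (pr L a) (b - (pr L b : C)) := rfl

/-- the functional `α ↦ ∑ Γ (b_i) (β_i)` for `δ α = ∑ b_i ∧ β_i` -/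
noncomputable def E1 : (L.W 1 →ₗ[ℚ] C →ₗ[ℚ] ℚ) →ₗ[ℚ] (C →ₗ[ℚ] ℚ) :=
  { toFun := fun Γ => (la 2 (alt2 (gam L Γ))) ∘ₗ L.d ∘ₗ ExteriorAlgebra.ι ℚ
    map_add' := fun Γ Γ' => by
      have h : gam L (Γ + Γ') = gam L Γ + gam L Γ' := by
        ext a b; rfl
      rw [h, alt2_add, la_add, LinearMap.add_comp]
    map_smul' := fun c Γ => by
      have h : gam L (c • Γ) = c • gam L Γ := by
        ext a b; rfl
      rw [h, alt2_smul, la_smul, LinearMap.smul_comp, RingHom.id_apply] }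

theorem E1_apply (Γ : L.W 1 →ₗ[ℚ] C →ₗ[ℚ] ℚ) (α : C) :
    E1 L Γ α = la 2 (alt2 (gam L Γ)) (L.d (ExteriorAlgebra.ι ℚ α)) := rfl

theorem la_gam (Γ : L.W 1 →ₗ[ℚ] C →ₗ[ℚ] ℚ) (v : L.W 1) (n : ℕ) (hn : n ≠ 1) (c : C)
    (hc : c ∈ L.W n) : la 2 (alt2 (gam L Γ)) (ExteriorAlgebra.ι ℚ (v : C) *
      ExteriorAlgebra.ι ℚ c) = Γ v c := by
  rw [la_two, alt2_apply, gam_apply, gam_apply, pr_coe, pr_ne L n hn c hc]
  simp

theorem E1_sum (Γ : L.W 1 →ₗ[ℚ] C →ₗ[ℚ] ℚ) (n : ℕ) (hn : n ≠ 1) (α : C) {I : Type}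
    (b : Module.Basis I ℚ (L.W 1)) (β : I →₀ C) (hβ : ∀ i, β i ∈ L.W n)
    (h : L.d (ExteriorAlgebra.ι ℚ α) =
        β.sum (fun i c => ExteriorAlgebra.ι ℚ (b i : C) * ExteriorAlgebra.ι ℚ c)) :
    E1 L Γ α = β.sum (fun i c => Γ (b i) c) := by
  rw [E1_apply, h, Finsupp.sum, map_sum, Finsupp.sum]
  exact Finset.sum_congr rfl fun i _ => la_gam L Γ (b i) n hn _ (hβ i)

/-- the functionals only depend on values at depth one elements -/
theorem E1_congr (Γ Γ' : L.W 1 →ₗ[ℚ] C →ₗ[ℚ] ℚ) (n : ℕ) (hn : n ≠ 1)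
    (h : ∀ v : L.W 1, ∀ c ∈ X L n, Γ v c = Γ' v c) (α : C) (hα : α ∈ X L (n + 1)) :
    E1 L Γ α = E1 L Γ' α := by
  obtain ⟨β, hβ, hs⟩ := expandX L n α hα (Module.Basis.ofVectorSpace ℚ (L.W 1))
  rw [E1_sum L Γ n hn α _ β (fun i => (hβ i).1) hs, E1_sum L Γ' n hn α _ β (fun i => (hβ i).1) hs]
  exact Finset.sum_congr rfl fun i _ => h _ _ (hβ i)

/-- the trilinear form of `Θ`, extended to `C` -/
noncomputable def gam3 (Θ : L.W 1 →ₗ[ℚ] L.W 1 →ₗ[ℚ] C →ₗ[ℚ] ℚ) :
    C →ₗ[ℚ] C →ₗ[ℚ] C →ₗ[ℚ] ℚ :=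
  { toFun := fun a => gam L (Θ (pr L a))
    map_add' := fun a a' => by
      ext b c
      rw [map_add, map_add]
      rfl
    map_smul' := fun r a => by
      ext b c
      rw [map_smul, map_smul]
      rfl }

theorem gam3_apply (Θ : L.W 1 →ₗ[ℚ] L.W 1 →ₗ[ℚ] C →ₗ[ℚ] ℚ) (a b c : C) :
    gam3 L Θ a b c = Θ (pr L a) (pr L b) (c - (pr L c : C)) := rfl

theorem la_gam3 (Θ : L.W 1 →ₗ[ℚ] L.W 1 →ₗ[ℚ] C →ₗ[ℚ] ℚ) (u v : L.W 1) (n : ℕ) (hn : n ≠ 1)
    (c : C) (hc : c ∈ L.W n) : la 3 (alt3 (gam3 L Θ)) (ExteriorAlgebra.ι ℚ (u : C) *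
      (ExteriorAlgebra.ι ℚ (v : C) * ExteriorAlgebra.ι ℚ c)) = Θ u v c - Θ v u c := by
  rw [la_ι_mul, la_two, AlternatingMap.curryLeft_apply_apply]
  have h : (Matrix.vecCons (u : C) ![(v : C), c] : Fin 3 → C) = ![(u : C), (v : C), c] := rfl
  rw [h, alt3_apply]
  simp only [gam3_apply, pr_coe, pr_ne L n hn c hc]
  simp

/-- the double cobracket of a depth one element is symmetric -/
theorem E1_swap (Θ : L.W 1 →ₗ[ℚ] L.W 1 →ₗ[ℚ] C →ₗ[ℚ] ℚ) (n : ℕ) (hn : n ≠ 1) (hn0 : n ≠ 0)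
    (α : C) (hα : α ∈ X L (n + 2)) :
    E1 L (E1 L ∘ₗ Θ) α = E1 L (E1 L ∘ₗ Θ.flip) α := by
  classical
  let b := Module.Basis.ofVectorSpace ℚ (L.W 1)
  obtain ⟨β, hβ, hs⟩ := expandX L (n + 1) α hα b
  choose γ hγ hγs using fun i => expandX L n (β i) (hβ i) b
  rw [E1_sum L _ (n + 1) (by omega) α b β (fun i => (hβ i).1) hs,
    E1_sum L _ (n + 1) (by omega) α b β (fun i => (hβ i).1) hs]
  have h1 : ∀ (Θ : L.W 1 →ₗ[ℚ] L.W 1 →ₗ[ℚ] C →ₗ[ℚ] ℚ) (i),
      (E1 L ∘ₗ Θ) (b i) (β i) = (γ i).sum (fun j c => Θ (b i) (b j) c) := fun Θ i =>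
    E1_sum L _ n hn (β i) b (γ i) (fun j => (hγ i j).1) (hγs i)
  simp only [Finsupp.sum, h1]
  rw [← sub_eq_zero, ← Finset.sum_sub_distrib]
  -- apply the functional to `d d α = 0`
  have h2 : L.d (L.d (ExteriorAlgebra.ι ℚ α)) = 0 := L.d_d _
  rw [hs, Finsupp.sum, map_sum] at h2
  have h3 : ∀ i, L.d (ExteriorAlgebra.ι ℚ (b i : C) * ExteriorAlgebra.ι ℚ (β i)) =
      - (ExteriorAlgebra.ι ℚ (b i : C) * L.d (ExteriorAlgebra.ι ℚ (β i))) := by
    intro i
    rw [L.d_mul, d_W_one L _ (b i).2, zero_mul, zero_sub]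
  have h4 := congrArg (fun w => - la 3 (alt3 (gam3 L Θ)) w) h2
  simp only [map_sum, map_zero, neg_zero, h3, map_neg, Finset.sum_neg_distrib, neg_neg] at h4
  rw [← h4]
  refine Finset.sum_congr rfl fun i _ => ?_
  rw [hγs i, Finsupp.sum, Finset.mul_sum, map_sum, ← Finset.sum_sub_distrib]
  refine Finset.sum_congr rfl fun j _ => ?_
  rw [la_gam3 L Θ (b i) (b j) n hn _ (hγ i j).1]
  rfl

/-! ### multilinear forms -/

/-- alternating forms in two variables on `C_1` -/
abbrev A2 (L : LieCoalg C) : Type := (L.W 1) [⋀^Fin 2]→ₗ[ℚ] ℚ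

/-- the functional on `C` of an alternating form on `C_1` -/
noncomputable def M0 : A2 L →ₗ[ℚ] (C →ₗ[ℚ] ℚ) :=
  { toFun := fun ω => (la 2 (ω.compLinearMap (pr L))) ∘ₗ L.d ∘ₗ ExteriorAlgebra.ι ℚ
    map_add' := fun ω ω' => by
      have h : (ω + ω').compLinearMap (pr L) =
        ω.compLinearMap (pr L) + ω'.compLinearMap (pr L) := rfl
      rw [h, la_add, LinearMap.add_comp]
    map_smul' := fun c ω => by
      have h : (c • ω).compLinearMap (pr L) = c • ω.compLinearMap (pr L) := rfl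
      rw [h, la_smul, LinearMap.smul_comp, RingHom.id_apply] }

theorem M0_apply (ω : A2 L) (α : C) :
    M0 L ω α = la 2 (ω.compLinearMap (pr L)) (L.d (ExteriorAlgebra.ι ℚ α)) := rfl

/-- multilinear maps on `C_1` with values in alternating forms -/
abbrev MM (L : LieCoalg C) (k : ℕ) : Type := MultilinearMap ℚ (fun _ : Fin k => L.W 1) (A2 L)

/-- the functional of a multilinear form -/
noncomputable def E : (k : ℕ) → MM L k →ₗ[ℚ] (C →ₗ[ℚ] ℚ)
  | 0 =>
    { toFun := fun G => M0 L (G 0)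
      map_add' := fun G G' => by
        rw [← map_add]
        rfl
      map_smul' := fun c G => by
        rw [RingHom.id_apply, ← map_smul]
        rfl }
  | k + 1 =>
    { toFun := fun G => E1 L (E k ∘ₗ (MultilinearMap.curryLeft (M := fun _ => L.W 1) G))
      map_add' := fun G G' => by
        rw [← map_add]
        congr 1
        ext v c
        change E k (MultilinearMap.curryLeft (M := fun _ => L.W 1) (G + G') v) c =
          E k (MultilinearMap.curryLeft (M := fun _ => L.W 1) G v) c +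
          E k (MultilinearMap.curryLeft (M := fun _ => L.W 1) G' v) c
        have h : MultilinearMap.curryLeft (M := fun _ => L.W 1) (G + G') v =
          MultilinearMap.curryLeft (M := fun _ => L.W 1) G v +
            MultilinearMap.curryLeft (M := fun _ => L.W 1) G' v := rfl
        rw [h, map_add]
        rfl
      map_smul' := fun r G => by
        rw [RingHom.id_apply, ← map_smul]
        congr 1
        ext v c
        change E k (MultilinearMap.curryLeft (M := fun _ => L.W 1) (r • G) v) c =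
          r * E k (MultilinearMap.curryLeft (M := fun _ => L.W 1) G v) c
        have h : MultilinearMap.curryLeft (M := fun _ => L.W 1) (r • G) v =
          r • MultilinearMap.curryLeft (M := fun _ => L.W 1) G v := rfl
        rw [h, map_smul]
        rfl }

theorem E_zero (G : MM L 0) : E L 0 G = M0 L (G 0) := rfl

theorem E_succ (k : ℕ) (G : MM L (k + 1)) :
    E L (k + 1) G = E1 L (E L k ∘ₗ (MultilinearMap.curryLeft (M := fun _ => L.W 1) G)) := rfl

/-- any variable can be split off -/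
theorem E_mid (k : ℕ) : ∀ (G : MM L (k + 1)) (i : Fin (k + 1)) (α : C), α ∈ X L (k + 3) →
    E1 L (E L k ∘ₗ (MultilinearMap.curryMid (M := fun _ => L.W 1) i G)) α = E L (k + 1) G α := by
  induction k with
  | zero =>
    intro G i α hα
    rw [E_succ]
    obtain rfl : i = 0 := by omega
    congr 3
    ext v s
    simp
  | succ k ih =>
    intro G i α hα
    refine Fin.cases ?_ (fun i => ?_) i
    · rw [E_succ]
      congr 3
      ext v s
      simp
    · -- `Θ u v c`
      let Θ : L.W 1 →ₗ[ℚ] L.W 1 →ₗ[ℚ] C →ₗ[ℚ] ℚ :=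
        { toFun := fun u => E L k ∘ₗ (MultilinearMap.curryMid (M := fun _ => L.W 1) i
            (MultilinearMap.curryLeft (M := fun _ => L.W 1) G u))
          map_add' := fun u u' => by
            ext v c
            have h : MultilinearMap.curryMid (M := fun _ => L.W 1) i
              (MultilinearMap.curryLeft (M := fun _ => L.W 1) G (u + u')) v =
              MultilinearMap.curryMid (M := fun _ => L.W 1) i
              (MultilinearMap.curryLeft (M := fun _ => L.W 1) G u) v +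
              MultilinearMap.curryMid (M := fun _ => L.W 1) i
              (MultilinearMap.curryLeft (M := fun _ => L.W 1) G u') v := by
              rw [map_add]; rfl
            change E L k (MultilinearMap.curryMid (M := fun _ => L.W 1) i
              (MultilinearMap.curryLeft (M := fun _ => L.W 1) G (u + u')) v) c = _
            rw [h, map_add]
            rfl
          map_smul' := fun r u => by
            ext v c
            have h : MultilinearMap.curryMid (M := fun _ => L.W 1) i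
              (MultilinearMap.curryLeft (M := fun _ => L.W 1) G (r • u)) v =
              r • MultilinearMap.curryMid (M := fun _ => L.W 1) i
              (MultilinearMap.curryLeft (M := fun _ => L.W 1) G u) v := by
              rw [map_smul]; rfl
            change E L k (MultilinearMap.curryMid (M := fun _ => L.W 1) i
              (MultilinearMap.curryLeft (M := fun _ => L.W 1) G (r • u)) v) c = _
            rw [h, map_smul]
            rfl }
      have h1 : E L (k + 1 + 1) G α = E1 L (E1 L ∘ₗ Θ) α := by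
        rw [E_succ]
        refine E1_congr L _ _ (k + 3) (by omega) (fun u c hc => ?_) α hα
        exact (ih (MultilinearMap.curryLeft (M := fun _ => L.W 1) G u) i c hc).symm
      rw [h1, E1_swap L Θ (k + 2) (by omega) (by omega) α hα]
      congr 2
      ext v c
      change E L (k + 1) (MultilinearMap.curryMid (M := fun _ => L.W 1) i.succ G v) c =
        E1 L (Θ.flip v) c
      rw [E_succ]
      congr 2
      ext u c'
      change E L k (MultilinearMap.curryLeft (M := fun _ => L.W 1)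
        (MultilinearMap.curryMid (M := fun _ => L.W 1) i.succ G v) u) c' =
        E L k (MultilinearMap.curryMid (M := fun _ => L.W 1) i
          (MultilinearMap.curryLeft (M := fun _ => L.W 1) G u) v) c'
      congr 2
      apply MultilinearMap.ext
      intro s
      change (G (Fin.insertNth i.succ v (Fin.cons u s))) = (G (Fin.cons u (Fin.insertNth i v s)))
      congr 1
      exact Fin.insertNth_succ_cons i v u s

end Pool.Agent.T9h59.GC
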