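import Pool.Agent.T9h59.GC.Dir

set_option autoImplicit false

/-!
# All functionals on the depth one part come from multilinear forms; symmetry; the Koszul relation
-/

namespace Pool.Agent.T9h59.GC

open Pool.Agent.TH358.MC H39Gon

variable {C : Type} [AddCommGroup C] [Module ℚ C] (L : LieCoalg C)

/-! ### existence -/

/-- injectivity of the cobracket in weights `≥ 2` -/
def Inj : Prop := ∀ (n : ℕ) (a : C), 2 ≤ n → a ∈ L.W n → L.d (ExteriorAlgebra.ι ℚ a) = 0 → a = 0

theorem exists_r (hL : Inj L) (n : ℕ) (hn : 2 ≤ n) : ∃ r : ExteriorAlgebra ℚ C →ₗ[ℚ] C,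
    ∀ a ∈ L.W n, r (L.d (ExteriorAlgebra.ι ℚ a)) = a := by
  let T : L.W n →ₗ[ℚ] ExteriorAlgebra ℚ C := (L.d ∘ₗ ExteriorAlgebra.ι ℚ) ∘ₗ (L.W n).subtype
  have hT : LinearMap.ker T = ⊥ := by
    rw [LinearMap.ker_eq_bot, injective_iff_map_eq_zero]
    rintro ⟨a, ha⟩ h
    exact Subtype.ext (hL n a hn ha h)
  obtain ⟨r, hr⟩ := LinearMap.exists_leftInverse_of_injective T hT
  refine ⟨(L.W n).subtype ∘ₗ r, fun a ha => ?_⟩
  have h := LinearMap.congr_fun hr ⟨a, ha⟩
  exact congrArg Subtype.val h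

/-- `Γ v c = f (ι v * ι c)` -/
noncomputable def Gam (f : ExteriorAlgebra ℚ C →ₗ[ℚ] ℚ) : L.W 1 →ₗ[ℚ] C →ₗ[ℚ] ℚ :=
  ((LinearMap.mul ℚ (ExteriorAlgebra ℚ C)).compl₁₂ (ExteriorAlgebra.ι ℚ ∘ₗ (L.W 1).subtype)
    (ExteriorAlgebra.ι ℚ)).compr₂ f

theorem Gam_apply (f : ExteriorAlgebra ℚ C →ₗ[ℚ] ℚ) (v : L.W 1) (c : C) :
    Gam L f v c = f (ExteriorAlgebra.ι ℚ (v : C) * ExteriorAlgebra.ι ℚ c) := rfl

theorem exists_R (hL : Inj L) (k : ℕ) : ∃ R : (C →ₗ[ℚ] ℚ) →ₗ[ℚ] MM L k,
    ∀ (f : C →ₗ[ℚ] ℚ), ∀ α ∈ X L (k + 2), E L k (R f) α = f α := by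
  induction k with
  | zero =>
    obtain ⟨r, hr⟩ := exists_r L hL 2 le_rfl
    let om : (C →ₗ[ℚ] ℚ) → A2 L := fun f =>
      ((f ∘ₗ r).compAlternatingMap (ExteriorAlgebra.ιMulti ℚ 2)).compLinearMap (L.W 1).subtype
    have hom : ∀ f (a b : L.W 1), om f ![a, b] =
        f (r (ExteriorAlgebra.ι ℚ (a : C) * ExteriorAlgebra.ι ℚ (b : C))) := by
      intro f a b
      change f (r (ExteriorAlgebra.ιMulti ℚ 2 (fun i => ((![a, b] : Fin 2 → L.W 1) i : C)))) = _
      rw [ExteriorAlgebra.ιMulti_apply]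
      simp
    refine ⟨{ toFun := fun f => MultilinearMap.constOfIsEmpty ℚ (fun _ : Fin 0 => L.W 1) (om f)
              map_add' := fun f g => ?_
              map_smul' := fun c f => ?_ }, fun f α hα => ?_⟩
    · ext s v
      rfl
    · ext s v
      rfl
    · change M0 L (om f) α = f α
      rw [M0_apply]
      obtain ⟨β, hβ, hs⟩ := expandX L 1 α hα (Module.Basis.ofVectorSpace ℚ (L.W 1))
      have h1 : f (r (L.d (ExteriorAlgebra.ι ℚ α))) = f α := by rw [hr α hα.1]
      rw [← h1, hs, Finsupp.sum, map_sum, map_sum, map_sum]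
      refine Finset.sum_congr rfl fun i _ => ?_
      rw [la_two]
      have h2 : (om f).compLinearMap (pr L) ![((Module.Basis.ofVectorSpace ℚ (L.W 1)) i : C), β i] =
          om f ![(Module.Basis.ofVectorSpace ℚ (L.W 1)) i, ⟨β i, (hβ i).1⟩] := by
        rw [AlternatingMap.compLinearMap_apply]
        congr 1
        funext j
        fin_cases j
        · exact pr_coe L _
        · exact pr_one L _ (hβ i).1
      rw [h2, hom]
  | succ k ih =>
    obtain ⟨R, hR⟩ := ih
    obtain ⟨r, hr⟩ := exists_r L hL (k + 3) (by omega)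
    refine ⟨{ toFun := fun f => LinearMap.uncurryLeft (M := fun _ : Fin (k + 1) => L.W 1)
                (R ∘ₗ Gam L (f ∘ₗ r))
              map_add' := fun f g => ?_
              map_smul' := fun c f => ?_ }, fun f α hα => ?_⟩
    · apply MultilinearMap.ext
      intro s
      change R (Gam L ((f + g) ∘ₗ r) (s 0)) (Fin.tail s) = R (Gam L (f ∘ₗ r) (s 0)) (Fin.tail s) +
        R (Gam L (g ∘ₗ r) (s 0)) (Fin.tail s)
      have h : Gam L ((f + g) ∘ₗ r) (s 0) = Gam L (f ∘ₗ r) (s 0) + Gam L (g ∘ₗ r) (s 0) := by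
        ext c; rfl
      rw [h, map_add]
      rfl
    · apply MultilinearMap.ext
      intro s
      change R (Gam L ((c • f) ∘ₗ r) (s 0)) (Fin.tail s) = c • R (Gam L (f ∘ₗ r) (s 0)) (Fin.tail s)
      have h : Gam L ((c • f) ∘ₗ r) (s 0) = c • Gam L (f ∘ₗ r) (s 0) := by
        ext c; rfl
      rw [h, map_smul]
      rfl
    · change E1 L (E L k ∘ₗ (R ∘ₗ Gam L (f ∘ₗ r))) α = f α
      obtain ⟨β, hβ, hs⟩ := expandX L (k + 2) α hα (Module.Basis.ofVectorSpace ℚ (L.W 1))
      rw [E1_sum L _ (k + 2) (by omega) α _ β (fun i => (hβ i).1) hs]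
      have h1 : f (r (L.d (ExteriorAlgebra.ι ℚ α))) = f α := by rw [hr α hα.1]
      rw [← h1, hs, Finsupp.sum, Finsupp.sum, map_sum, map_sum]
      refine Finset.sum_congr rfl fun i _ => ?_
      exact hR (Gam L (f ∘ₗ r) _) (β i) (hβ i)

/-! ### symmetry: only the diagonal matters -/

theorem E_diag (k : ℕ) : ∀ (G : MM L k), (∀ s : L.W 1, G (fun _ => s) = 0) →
    ∀ α ∈ X L (k + 2), E L k G α = 0 := by
  induction k with
  | zero =>
    intro G hG α _
    rw [E_zero]
    have h : G 0 = 0 := by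
      have h1 := hG 0
      have h2 : (fun _ : Fin 0 => (0 : L.W 1)) = 0 := rfl
      rwa [h2] at h1
    rw [h, map_zero]
    rfl
  | succ k ih =>
    intro G hG α hα
    let KD : L.W 1 →ₗ[ℚ] MM L k :=
      ∑ i : Fin (k + 1), MultilinearMap.curryMid (M := fun _ => L.W 1) i G
    have h1 : ((k : ℚ) + 1) * E L (k + 1) G α = E1 L (E L k ∘ₗ KD) α := by
      have h2 : E L k ∘ₗ KD =
          ∑ i : Fin (k + 1), E L k ∘ₗ (MultilinearMap.curryMid (M := fun _ => L.W 1) i G) := by
        ext v c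
        simp only [KD, LinearMap.comp_apply, LinearMap.sum_apply, map_sum]
      rw [h2, map_sum, LinearMap.sum_apply, Finset.sum_congr rfl fun i _ => E_mid L k G i α hα]
      simp
    have h3 : E1 L (E L k ∘ₗ KD) α = 0 := by
      rw [E1_congr L _ 0 (k + 2) (by omega) (fun v c hc => ?_) α hα, map_zero,
        LinearMap.zero_apply]
      change E L k (KD v) c = 0
      refine ih (KD v) (fun s => ?_) c hc
      ext y
      let evy : A2 L →ₗ[ℚ] ℚ :=
        { toFun := fun ω => ω y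
          map_add' := fun _ _ => rfl
          map_smul' := fun _ _ => rfl }
      have h4 := D1_pol ((evy.compMultilinearMap G).restrictScalars ℤ)
        (fun s => by
          change (G (fun _ => s)) y = 0
          rw [hG]; rfl) s v
      rw [AlternatingMap.zero_apply, ← h4]
      change (KD v (fun _ => s)) y = _
      have h6 : KD v (fun _ => s) = ∑ i : Fin (k + 1), G (Fin.insertNth i v (fun _ => s)) := by
        simp only [KD, LinearMap.sum_apply, sum_apply]
        rfl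
      rw [h6]
      change evy (∑ i, _) = _
      rw [map_sum]
      refine Finset.sum_congr rfl fun i _ => ?_
      change (G (Fin.insertNth i v (fun _ => s))) y = (G (Function.update (fun _ => s) i v)) y
      rw [D1_insertNth]
    rw [h3] at h1
    have h5 : ((k : ℚ) + 1) ≠ 0 := by positivity
    exact (mul_eq_zero.1 h1).resolve_left h5

/-! ### the Koszul relation -/

/-- split off one variable of the alternating part -/
noncomputable def sp (k : ℕ) (K : MultilinearMap ℚ (fun _ : Fin k => L.W 1)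
    ((L.W 1) [⋀^Fin 3]→ₗ[ℚ] ℚ)) : MM L (k + 1) :=
  MultilinearMap.uncurryRight (M := fun _ : Fin (k + 1) => L.W 1)
    ((AlternatingMap.curryLeftLinearMap (R := ℚ) (M := L.W 1) (N := ℚ)
      (n := 2)).compMultilinearMap K)

theorem sp_apply (k : ℕ) (K : MultilinearMap ℚ (fun _ : Fin k => L.W 1)
    ((L.W 1) [⋀^Fin 3]→ₗ[ℚ] ℚ)) (s : Fin (k + 1) → L.W 1) (y : Fin 2 → L.W 1) :
    sp L k K s y = K (Fin.init s) (Fin.cons (s (Fin.last k)) y) := rfl

theorem E_kos (k : ℕ) : ∀ (K : MultilinearMap ℚ (fun _ : Fin k => L.W 1)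
    ((L.W 1) [⋀^Fin 3]→ₗ[ℚ] ℚ)), ∀ α ∈ X L (k + 3), E L (k + 1) (sp L k K) α = 0 := by
  classical
  induction k with
  | zero =>
    intro K α hα
    let b := Module.Basis.ofVectorSpace ℚ (L.W 1)
    obtain ⟨β, hβ, hs⟩ := expandX L 2 α hα b
    rw [E_succ, E1_sum L _ 2 (by omega) α b β (fun i => (hβ i).1) hs]
    set T : (L.W 1) [⋀^Fin 3]→ₗ[ℚ] ℚ := K 0 with hT
    have h1 : ∀ i, (E L 0 ∘ₗ (MultilinearMap.curryLeft (M := fun _ => L.W 1) (sp L 0 K))) (b i)
        (β i) = la 3 (T.compLinearMap (pr L)) (ExteriorAlgebra.ι ℚ (b i : C) *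
          L.d (ExteriorAlgebra.ι ℚ (β i))) := by
      intro i
      rw [la_ι_mul]
      change la 2 (((sp L 0 K) (Fin.cons (b i) 0)).compLinearMap (pr L))
        (L.d (ExteriorAlgebra.ι ℚ (β i))) = _
      congr 2
      ext y
      rw [AlternatingMap.curryLeft_apply_apply, AlternatingMap.compLinearMap_apply,
        AlternatingMap.compLinearMap_apply, sp_apply]
      have h2 : (Fin.init (Fin.cons (b i) (0 : Fin 0 → L.W 1) : Fin 1 → L.W 1)) =
        (0 : Fin 0 → L.W 1) := Subsingleton.elim _ _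
      rw [h2, ← hT]
      congr 1
      funext j
      refine Fin.cases ?_ (fun j => ?_) j
      · exact (pr_coe L (b i)).symm
      · rfl
    simp only [Finsupp.sum, h1]
    have h2 : L.d (L.d (ExteriorAlgebra.ι ℚ α)) = 0 := L.d_d _
    rw [hs, Finsupp.sum, map_sum] at h2
    have h3 : ∀ i, L.d (ExteriorAlgebra.ι ℚ (b i : C) * ExteriorAlgebra.ι ℚ (β i)) =
        - (ExteriorAlgebra.ι ℚ (b i : C) * L.d (ExteriorAlgebra.ι ℚ (β i))) := by
      intro i
      rw [L.d_mul, d_W_one L _ (b i).2, zero_mul, zero_sub]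
    have h4 := congrArg (fun w => - la 3 (T.compLinearMap (pr L)) w) h2
    simp only [map_sum, map_zero, neg_zero, h3, map_neg, Finset.sum_neg_distrib, neg_neg] at h4
    exact h4
  | succ k ih =>
    intro K α hα
    rw [E_succ, E1_congr L _ 0 (k + 3) (by omega) (fun v c hc => ?_) α hα, map_zero,
      LinearMap.zero_apply]
    change E L (k + 1) (MultilinearMap.curryLeft (M := fun _ => L.W 1) (sp L (k + 1) K) v) c = 0
    have h : MultilinearMap.curryLeft (M := fun _ => L.W 1) (sp L (k + 1) K) v =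
        sp L k (MultilinearMap.curryLeft (M := fun _ => L.W 1) K v) := by
      ext s y
      have h' : (Fin.init (Fin.cons v s : Fin (k + 2) → L.W 1) : Fin (k + 1) → L.W 1) =
          Fin.cons v (Fin.init s) := by
        funext j
        refine Fin.cases ?_ (fun j => ?_) j <;> rfl
      change K (Fin.init (Fin.cons v s : Fin (k + 2) → L.W 1)) _ = K (Fin.cons v (Fin.init s)) _
      rw [h']
      rfl
    rw [h]
    exact ih _ c hc

/-! ### the homotopy -/

/-- the multilinear form `K` with `K (s, …, s) (s, y) = (k + 3) G (s, …, s) y` -/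
noncomputable def hK (k : ℕ) (G : MM L (k + 1)) : MultilinearMap ℚ (fun _ : Fin k => L.W 1)
    ((L.W 1) [⋀^Fin 3]→ₗ[ℚ] ℚ) :=
  (AlternatingMap.alternatizeUncurryFinLM (R := ℚ) (M := L.W 1) (N := ℚ)
    (n := 2)).compMultilinearMap (D1_kd (V := L.W 1) G)

/-- restriction of scalars -/
noncomputable def rsc : A2 L →ₗ[ℤ] ((L.W 1) [⋀^Fin 2]→ₗ[ℤ] ℚ) :=
  { toFun := fun ω => { ω.toMultilinearMap.restrictScalars ℤ with
      map_eq_zero_of_eq' := ω.map_eq_zero_of_eq' }
    map_add' := fun _ _ => rfl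
    map_smul' := fun c ω => by
      ext y
      change (c • ω) y = c • (ω y)
      rfl }

theorem rsc_apply (ω : A2 L) (y : Fin 2 → L.W 1) : rsc L ω y = ω y := rfl

theorem hK_apply (k : ℕ) (G : MM L (k + 1))
    (hG : ∀ (s v : L.W 1), G (fun _ => s) ![s, v] = 0) (s : L.W 1) (y : Fin 2 → L.W 1) :
    hK L k G (fun _ => s) (Fin.cons s y) = ((k : ℚ) + 3) * G (fun _ => s) y := by
  let R : MultilinearMap ℤ (fun _ : Fin (k + 1) => L.W 1) ((L.W 1) [⋀^Fin 2]→ₗ[ℤ] ℚ) :=
    (rsc L).compMultilinearMap (G.restrictScalars ℤ)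
  have h := D1_hom R (fun i hi s y => by
    obtain rfl : i = 1 := by omega
    change G (fun _ => s) _ = 0
    rw [← hG s (y 0)]
    congr 1
    funext j
    fin_cases j <;> rfl) s y
  have h2 : R (fun _ => s) y = G (fun _ => s) y := rfl
  rw [h2] at h
  push_cast at h
  have h3 : ((k : ℚ) + 1 + 2) = (k : ℚ) + 3 := by ring
  rw [h3] at h
  rw [← h]
  change AlternatingMap.alternatizeUncurryFin (D1_kd (V := L.W 1) G (fun _ => s)) (Fin.cons s y) = _
  rw [AlternatingMap.alternatizeUncurryFin_apply, AlternatingMap.alternatizeUncurryFin_apply]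
  refine Finset.sum_congr rfl fun i _ => ?_
  congr 1
  rw [D1_kd_apply, D1_kd_apply]
  let e1 : A2 L →ₗ[ℚ] ℚ :=
    { toFun := fun ω => ω (i.removeNth (Fin.cons s y : Fin 3 → L.W 1))
      map_add' := fun _ _ => rfl
      map_smul' := fun _ _ => rfl }
  let e2 : ((L.W 1) [⋀^Fin 2]→ₗ[ℤ] ℚ) →ₗ[ℤ] ℚ :=
    { toFun := fun ω => ω (i.removeNth (Fin.cons s y : Fin 3 → L.W 1))
      map_add' := fun _ _ => rfl
      map_smul' := fun _ _ => rfl }
  change e1 (∑ j, _) = e2 (∑ j, _)
  rw [map_sum, map_sum]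
  rfl

/-- if `G (s, …, s) (s, v) = 0` for all `s, v` then the functional of `G` is zero -/
theorem E_van (k : ℕ) (G : MM L k) (hG : ∀ (s v : L.W 1), G (fun _ => s) ![s, v] = 0)
    (α : C) (hα : α ∈ X L (k + 2)) : E L k G α = 0 := by
  cases k with
  | zero =>
    apply E_diag L 0 G (fun s => ?_) α hα
    ext y
    have h := hG (y 0) (y 1)
    have h1 : (![y 0, y 1] : Fin 2 → L.W 1) = y := by
      funext j
      fin_cases j <;> rfl
    rw [h1] at h
    have h2 : (fun _ : Fin 0 => y 0) = (fun _ : Fin 0 => s) := Subsingleton.elim _ _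
    rw [h2] at h
    exact h
  | succ k =>
    have h3 : ((k : ℚ) + 3) ≠ 0 := by positivity
    have h1 := E_diag L (k + 1) (sp L k (hK L k G) - ((k : ℚ) + 3) • G) (fun s => by
      ext y
      change sp L k (hK L k G) (fun _ => s) y - ((k : ℚ) + 3) * G (fun _ => s) y = 0
      rw [sp_apply, sub_eq_zero]
      exact hK_apply L k G hG s y) α hα
    rw [map_sub, map_smul, LinearMap.sub_apply, E_kos L k _ α hα, zero_sub, neg_eq_zero] at h1
    exact (mul_eq_zero.1 h1).resolve_left h3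

end Pool.Agent.T9h59.GC
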